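import Pool.Agent.Q54.HT.Ss

/-!
# Frobenius semisimplicity for complete varieties and singular cubic hypersurfaces

For a tensor `T` of format `(M + 1) × (M + 1) × (r + 1)` over the field `k` let `C_T` be the affine
cubic hypersurface `∑ T_{abc} x_a y_b z_c = 0`, `x_0 = y_0 = 1` (`tenO T 0`). We show that for every
smooth projective variety `X` over `k` there are `T` and `c` such that for every variety `V` that
contains `C_T` as an open subscheme (for example the closure of `C_T` in a projective space, a cubic
hypersurface) the homology of `X` is a quotient of the homology of `V`, up to the shift by `c`. So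
the Frobenius automorphism acts semisimply on the cohomology of all complete varieties if and only
if it acts semisimply on that of one completion of each of the cubic hypersurfaces `C_T`.
-/

namespace Pool.Agent.Results.MP_b685ef_ag.CubicHypersurfaces

universe u v w

open Q54.CU Q54.HT CategoryTheory AlgebraicGeometry

variable {k : Type u} [Field k] {𝓜 : Type w} [Category.{v} 𝓜] [Abelian 𝓜]

/-- The variety `V` is complete. -/
def IsComplete (V : SchO k) : Prop := IsVar V ∧ IsProper V.hom

/-- The variety `X` is complete and smooth and there is an affine bundle over `X` with affine total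
space. By Jouanolou all smooth projective varieties have these properties. -/
def IsSmoothProjective (X : SchO k) : Prop := IsComplete X ∧ Smooth X.hom ∧ HasAffineTorsor X

/-- The variety `V` is a completion of `C`. -/
def IsCompletion (V C : SchO k) : Prop := IsComplete V ∧ ContainsOpen V C

/-- The homology of `V` is semisimple. If `V` is complete, `H_i(V)` is the dual of `H^i(V)`. -/
def IsSemisimpleHomology (h : ℤ → ℤ → SchO k → 𝓜) (V : SchO k) : Prop :=
  ∀ n s, IsSemisimpleObj (h n s V)

/-- **Semisimplicity for complete varieties and for singular cubic hypersurfaces.** -/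
theorem result (h : ℤ → ℤ → SchO k → 𝓜) (hh : IsHomology h) (P W : ℤ → 𝓜 → Prop)
    (hW : IsWeights P W) (hw : HasWeights h P W)
    (alterations : (∀ X : SchO k, IsSmoothProjective X → IsSemisimpleHomology h X) →
      ∀ V : SchO k, IsComplete V → IsSemisimpleHomology h V)
    (comp : ∀ {M r : ℕ}, (Fin (M + 1) → Fin (M + 1) → Fin (r + 1) → k) → SchO k)
    (hcomp : ∀ {M r : ℕ} (T : Fin (M + 1) → Fin (M + 1) → Fin (r + 1) → k),
      IsCompletion (comp T) (tenO T 0)) :
    (∀ X : SchO k, IsSmoothProjective X → ∃ (M r c : ℕ)
      (T : Fin (M + 1) → Fin (M + 1) → Fin (r + 1) → k), ∀ V : SchO k, IsVar V →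
        ContainsOpen V (tenO T 0) → ∀ n s : ℤ, IsQuotient (h (n + c) s V) (h n s X)) ∧
    ((∀ V : SchO k, IsComplete V → IsSemisimpleHomology h V) ↔
      ∀ (M r : ℕ) (T : Fin (M + 1) → Fin (M + 1) → Fin (r + 1) → k),
        IsSemisimpleHomology h (comp T)) := by
  have h1 : ∀ X : SchO k, IsSmoothProjective X → ∃ (M r c : ℕ)
      (T : Fin (M + 1) → Fin (M + 1) → Fin (r + 1) → k), ∀ V : SchO k, IsVar V →
        ContainsOpen V (tenO T 0) → ∀ n s : ℤ, IsQuotient (h (n + c) s V) (h n s X) :=
    fun X hX => exists_quotient hh hW hw hX.1.1 hX.2.1 hX.1.2 hX.2.2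
  refine ⟨h1, fun h2 M r T => h2 _ (hcomp T).1, fun h2 => alterations fun X hX n s => ?_⟩
  obtain ⟨M, r, c, T, hT⟩ := h1 X hX
  exact (h2 M r T (n + c) s).quotient (hT (comp T) (hcomp T).1.1 (hcomp T).2 n s)

end Pool.Agent.Results.MP_b685ef_ag.CubicHypersurfaces
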