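import Pool.Agent.Q56.DP.Poles

/-!
# If cycles explain a positive proportion of the Tate classes, Frobenius acts semisimply

Let `X` be a smooth projective variety over a finite field `k`, and let `l`, `l'` be two primes
different from the characteristic (or take crystalline cohomology for one of the two). Take for `Γ`
the group generated by the Frobenius automorphism `φ`, and `D = 1`. On the powers
`pw X n = X ^ (n + 1)` we consider

* `t n` and `t' n`, the dimensions of the spaces of all `l`-adic and of all `l'`-adic Tate classes;
* `p n`, the dimension of the space of the generalised Tate classes: the classes killed by a power of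
  (a power of `φ` minus the twist). It is the sum of the orders of the poles of the zeta function of
  `X ^ (n + 1)` at the integers, over large finite extensions of `k`, and so it does not depend on
  `l` (this is the hypothesis `hL`; a theorem of Deligne);
* `r n`, the rank of the cycles modulo numerical equivalence.

We prove: the three quotients `t n / r n`, `t' n / r n`, `p n / r n` tend to the same limit
`N ∈ {1, 2, ..., ∞}`, and if `N` is finite, then Frobenius acts semisimply on `H^i(X ^ n)` for all `i`
and `n`, and for BOTH cohomology theories (moreover homological and numerical equivalence agree and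
the number of Tate classes is the order of the pole). So if Frobenius has a Jordan block of size at
least two on some `H^i(X)`, for one prime `l`, then the algebraic cycles on the powers of `X` explain
a vanishing proportion of the Tate classes, for every prime.

The theorem is proved for finitely generated fields of characteristic `p`: `Γ` is the Weil group, `D`
the geometric Galois group, a normal subgroup, and every element of `Γ` is of the form `φ ^ m * d` with
`d ∈ D`. The proof uses the filtration of the generalised Tate classes by the depth of the Jordan
chains of the Frobenius element (`Pool.Agent.Q56.DP`).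
-/

open CategoryTheory AlgebraicGeometry

universe u v v' w

namespace Pool.Agent.Results.MP_b685ef_ag.IndexForcesSemisimplicity

open Pool.Agent.H914 Pool.Agent.H914.VarClass
open Pool.Agent.Q55 (GaloisAction)
open Pool.Agent.Y133.Half (pw HasIndex)
open Pool.Agent.Q56.DP (tateNumber poleNumber rankNumber TateNum Regular)

/-- **The index of the Tate classes over the algebraic cycles exists, it is independent of the
cohomology theory and equal to the index of the orders of the poles; if it is finite, then Frobenius
is semisimple on the cohomology of all powers, for both theories.** -/
theorem result {k : Type u} [Field k] {𝒱 : VarClass k} {ops : CycleOps 𝒱}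
    {W : WeilCohomology.{u, v} ops} {W' : WeilCohomology.{u, v'} ops} {Γ : Type w} [Group Γ]
    (G : GaloisAction W Γ) (G' : GaloisAction W' Γ) (D : Subgroup Γ) [D.Normal] (φ : Γ)
    (hφ : ∀ g : Γ, ∃ m : ℤ, ∃ d ∈ D, g = φ ^ m * d) (X : 𝒱.Obj) [Nontrivial (W.H X)]
    [Nontrivial (W'.H X)] (hL : poleNumber G D φ X = poleNumber G' D φ X) :
    ∃ N : ℕ∞, 1 ≤ N ∧ HasIndex (poleNumber G D φ X) (rankNumber ops X) N ∧
      HasIndex (tateNumber G X) (rankNumber ops X) N ∧
      HasIndex (tateNumber G' X) (rankNumber ops X) N ∧
      (N = 1 ↔ ∀ n, TateNum G (pw X n)) ∧ (N = 1 ↔ ∀ n, TateNum G' (pw X n)) ∧
      (N ≠ ⊤ → tateNumber G X = tateNumber G' X ∧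
        ∀ n, Regular G D φ (pw X n) ∧ Regular G' D φ (pw X n)) :=
  Pool.Agent.Q56.DP.index_independent G G' D φ hφ X hL

end Pool.Agent.Results.MP_b685ef_ag.IndexForcesSemisimplicity
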