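import Pool.Agent.Q45.EM.Cons
import Pool.Agent.Q176.EM.Frb
import Pool.Agent.Q151.EM.SST
import Pool.Agent.Y160.SL.Conv

/-!
# Semisimplicity of Frobenius for surfaces branched along a section

Let `k` be a field of characteristic different from two with separable closure `k'`, `P(t, w)` a polynomial
over `k`, monic of odd degree `n ≥ 3` in `w`, and let `G(t)` be a polynomial over `k`. Suppose that the
plane curve `C : P = 0` is isomorphic to the affine line over `k'`, and that the polynomial
`e(t) = P(t, G(t))` is not constant, separable and prime to the discriminant of `P`. Let `S` be the surface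

`Y ^ 2 = (w - G(t)) P(t, w)`,

the double covering of the plane branched along `C` and the section `w = G(t)`; these two curves meet over
the zeros of `e`. Let `J` be the Jacobian of the generic fibre of `S` over the `t`-line, a curve over
`K = k(t)`, let `F = k'(t)`, and let `M` be the `ℤ_2`-module of the classes of the continuous cocycles of
`Gal(Sep F / F)` with values in the Tate module `T_2 J` which are locally trivial at all the maximal ideals
of `k'[t]`. The automorphisms of the separable closure of `F` over `K` act on `M`, through `Gal(k' / k)`.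
Let `D` be the class in `M` of the rational point of `J` given by the section.

Let `T` be an automorphism which permutes the roots of `e` in `k'` with at most three cycles, the lengths
of which are odd and pairwise coprime. Then, on `ℚ_2 ⊗ (M / ℤ_2 D)`:

* if there are at most two cycles, the eigenvalues of `T` are distinct, even modulo `2`;
* `T` is semisimple with respect to every nondegenerate symmetric form which it preserves.

If `k` is finite and `T` is the Frobenius automorphism, the lengths of the cycles are the degrees of the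
irreducible factors of `e`.
-/

set_option autoImplicit false
set_option linter.all false

open Polynomial IsDedekindDomain
open scoped Classical

namespace Pool.Agent.Results.MP_b685ef_ag.PairwiseCoprimeDegrees

open Pool.Agent.Y160.SL
open Pool.Agent.TH115.GD (incl ak Sep Comp)

/-- The partial derivative of `P(t, w)` with respect to `t`: the derivative is applied to the
coefficients. -/
noncomputable def derivT {k : Type} [Field k] (P : k[X][X]) : k[X][X] :=
  P.sum fun i a => C (derivative a) * X ^ i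

/-- The affine curve `P(t, w) = 0` is smooth. -/
def IsSmooth {k : Type} [Field k] (P : k[X][X]) : Prop :=
  ∃ a b c : k[X][X], a * P + b * derivative P + c * derivT P = 1

/-- The polynomial `P(t, w)` over `k'`. -/
noncomputable def extendPoly {k : Type} [Field k] (k' : Type) [Field k'] [Algebra k k']
    (P : k[X][X]) : k'[X][X] := P.map (mapRingHom (algebraMap k k'))

/-- The curve `P(t, w) = 0` over `k` is isomorphic to the affine line: its coordinate ring is isomorphic,
as a `k`-algebra, to the ring of polynomials in one variable. -/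
def IsAffineLine {k : Type} [Field k] (P : k[X][X]) : Prop :=
  Nonempty (AdjoinRoot P ≃ₐ[k] k[X])

/-- The polynomial `e(t) = P(t, G(t))`. -/
noncomputable def valueAt {k : Type} [Field k] (P : k[X][X]) (G : k[X]) : k[X] := P.eval G

/-- The polynomial `x ^ n + a₁ x ^ (n - 1) + a₂ e x ^ (n - 2) + ⋯ + a_n e ^ (n - 1)`, where `e = P(t, G)`
and `P(t, G + T) = e + a₁ T + a₂ T ^ 2 + ⋯ + a_n T ^ n`. -/
noncomputable def oddModel {k : Type} [Field k] (P : k[X][X]) (G : k[X]) : k[X][X] :=
  X ^ P.natDegree + ∑ i ∈ Finset.range P.natDegree,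
    C ((taylor G P).coeff (i + 1) * valueAt P G ^ i) * X ^ (P.natDegree - 1 - i)

/-- The same polynomial over the field `K` which contains `k[t]`. -/
noncomputable def fPoly {k : Type} [Field k] (P : k[X][X]) (G : k[X]) (K : Type) [Field K]
    [Algebra k[X] K] : K[X] := (oddModel P G).map (algebraMap k[X] K)

/-- The conditions on the curve `P(t, w) = 0` and on the section `w = G(t)` over `k`; `k'` is the
separable closure of `k`. -/
structure IsPair {k : Type} [Field k] (k' : Type) [Field k'] [Algebra k k'] (P : k[X][X])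
    (G : k[X]) : Prop where
  two : (2 : k) ≠ 0
  monic : P.Monic
  odd : Odd P.natDegree
  three_le : 3 ≤ P.natDegree
  deriv_ne : derivative P ≠ 0
  smooth : IsSmooth P
  line : IsAffineLine (extendPoly k' P)
  pos : 0 < (valueAt P G).natDegree
  separable : (valueAt P G).Separable
  coprime : IsCoprime (valueAt P G) P.discr

section gen

variable {K F Ω : Type} [Field K] [Field F] [Field Ω] [Algebra K F] [Algebra F Ω] [Algebra K Ω]
  [IsScalarTower K F Ω] (f : K[X])

/-- The sequences of cochains of `Gal(Ω / F)` with values in `J(Ω)`. -/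
abbrev Cochain (F Ω : Type) [Field F] [Field Ω] [Algebra K Ω] [Algebra F Ω] (f : K[X]) : Type :=
  ℕ → (Ω ≃ₐ[F] Ω) → Jac 2 f Ω

/-- `c` is the coboundary of an element `R` of the Tate module `T_2 J`. -/
def IsTateCoboundary (c : Cochain F Ω f) : Prop :=
  ∃ R : ℕ → Jac 2 f Ω, IsTM 2 2 f R ∧ ∀ n, IsCobOf 2 f (c n) (R n)

/-- The map `κ` identifies with `M` the group of the classes of the cocycles with the property `P`:
it is additive and surjective on these cocycles, and `κ c = 0` if and only if `c` is the coboundary of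
an element of the Tate module. -/
structure IsClassMap (P : Cochain F Ω f → Prop) (M : Type) [AddCommGroup M]
    (κ : Cochain F Ω f → M) : Prop where
  surj : ∀ m, ∃ c, P c ∧ κ c = m
  add : ∀ c d, P c → P d → κ (c + d) = κ c + κ d
  zero : ∀ c, P c → (κ c = 0 ↔ IsTateCoboundary f c)

/-- `d` is the transform of the cochain `c` by the automorphism `T` of `Ω` over `K`:
`d (σ) = T (c (σ'))`, where `σ' = T⁻¹ σ T`. -/
def IsTransform (T : Ω ≃ₐ[K] Ω) (c d : Cochain F Ω f) : Prop :=
  ∀ n (σ σ' : Ω ≃ₐ[F] Ω), (∀ x, T (σ' x) = σ (T x)) → d n σ = jm 2 f (ak T) (c n σ')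

/-- The endomorphism `φ` of `M` is induced by the automorphism `T` of `Ω` over `K`. -/
def IsInduced (P : Cochain F Ω f → Prop) {M : Type} (κ : Cochain F Ω f → M) (T : Ω ≃ₐ[K] Ω)
    (φ : M → M) : Prop :=
  ∀ c d, P c → IsTransform f T c d → P d ∧ κ d = φ (κ c)

end gen

section point

/-- The ideal of the divisor `u(x) = 0`, `y = v(x)` in the coordinate ring of the affine curve
`y ^ 2 = f(x)`. -/
noncomputable def divIdeal {K : Type} [Field K] (f u v : K[X]) : Ideal (CoordRing 2 f) :=
  Ideal.span {ofPoly 2 f u, wfun 2 f - ofPoly 2 f v}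

/-- The ideal `I` of `R` is an invertible module, and `P` is its class in the Picard group. -/
def IsIdealClass {R : Type} [CommRing R] (P : Additive (CommRing.Pic R)) (I : Ideal R) : Prop :=
  ∃ _ : Module.Invertible R I, P = Additive.ofMul (CommRing.Pic.mk R I)

/-- The element `P` of `J(K) = Pic(K[x, y] / (y ^ 2 - f(x)))` is the class of the ideal of the divisor
`u(x) = 0`, `y = v(x)`. -/
def IsDivisor {K : Type} [Field K] (f u v : K[X]) (P : Jac 2 f K) : Prop :=
  IsIdealClass (R := CoordRing 2 (f.map (algebraMap K K))) P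
    (divIdeal (f.map (algebraMap K K)) u v)

end point

section sel

variable {K F : Type} [Field K] [Field F] [Algebra K F] (B : Type) [CommRing B] [IsDedekindDomain B]
  [Algebra B F] [IsFractionRing B F] (f : K[X])

/-- The restriction of the cochain `c` to the completion of `F` at every maximal ideal of the Dedekind
domain `B` with field of fractions `F` is a coboundary. -/
def IsSelmer (c : (Sep F ≃ₐ[F] Sep F) → Jac 2 f (Sep F)) : Prop :=
  ∀ v : HeightOneSpectrum B, LocTriv 2 f (Comp B F v) (Sep (Comp B F v)) c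

/-- `c` is a continuous cocycle of `Gal(Sep F / F)` with values in the Tate module `T_2 J` which is
locally trivial at all the maximal ideals of the Dedekind domain `B` with field of fractions `F`; its
component with values in `J[2 ^ n]` is `c n`. -/
def IsSelmerCocycle (c : Cochain F (Sep F) f) : Prop :=
  IsTC 2 2 f c ∧ ∀ n, IsSelmer B f (c n)

/-- The automorphism `T` of `Sep F` over `K` acts on the module of the classes as `φ`. -/
def ActsAs {M : Type} [AddCommGroup M] [Module ℤ_[2] M] (κ : Cochain F (Sep F) f → M)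
    (T : Sep F ≃ₐ[K] Sep F) (φ : M →ₗ[ℤ_[2]] M) : Prop :=
  IsInduced f (IsSelmerCocycle B f) κ T φ

/-- The automorphism `T` of `Sep F` over `K` maps the constant `c` in `k'` to `τ c`. -/
def ActsOnConstants {k' : Type} [Field k'] [Algebra k'[X] F] (T : Sep F ≃ₐ[K] Sep F) (τ : k' → k') :
    Prop :=
  ∀ c : k', T (algebraMap F (Sep F) (algebraMap k'[X] F (C c))) =
    algebraMap F (Sep F) (algebraMap k'[X] F (C (τ c)))

/-- The element `D` of the module of the classes is the class of the element `P₀` of `J(K)`: it is the class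
of a cocycle `c` with `c n σ = σ R - R` and `2 ^ n R = P₀`. -/
def IsClassOf {M : Type} [AddCommGroup M] (κ : Cochain F (Sep F) f → M) (P₀ : Jac 2 f K) (D : M) :
    Prop :=
  ∃ c : Cochain F (Sep F) f, IsSelmerCocycle B f c ∧ κ c = D ∧
    ∀ n, ∃ R : Jac 2 f (Sep F), 2 ^ n • R = jm 2 f (incl K K (Sep F)) P₀ ∧ IsCobOf 2 f (c n) R

end sel

/-- `M` is the module of the classes, through `κ`, and `D` is the class of the point `x = 0`,
`y = e ^ ((n - 1) / 2)` of `J(K)`. -/
def IsModule {k K F : Type} [Field k] [Field K] [Algebra k[X] K] [Field F] [Algebra K F] (B : Type)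
    [CommRing B] [IsDedekindDomain B] [Algebra B F] [IsFractionRing B F] (P : k[X][X]) (G : k[X])
    {M : Type} [AddCommGroup M] (κ : Cochain F (Sep F) (fPoly P G K) → M) (D : M) : Prop :=
  IsClassMap (fPoly P G K) (IsSelmerCocycle B (fPoly P G K)) M κ ∧
    ∃ P₀ : Jac 2 (fPoly P G K) K,
      IsDivisor (fPoly P G K) X (C (algebraMap k[X] K (valueAt P G ^ ((P.natDegree - 1) / 2)))) P₀ ∧
      IsClassOf B (fPoly P G K) κ P₀ D

section lin

variable {M : Type} [AddCommGroup M] [Module ℤ_[2] M]

/-- The quotient of `M` by the submodule generated by `D`. -/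
abbrev Quot (D : M) : Type := M ⧸ Submodule.span ℤ_[2] {D}

/-- `ψ` is the endomorphism of the quotient induced by `φ`. -/
def IsQuotient (D : M) (φ : M →ₗ[ℤ_[2]] M) (ψ : Quot D →ₗ[ℤ_[2]] Quot D) : Prop :=
  ∀ m : M, ψ (Submodule.Quotient.mk m) = Submodule.Quotient.mk (φ m)

/-- The endomorphism `ψ` (of `ℚ_2 ⊗ V`) is semisimple: for all polynomials `p` the kernel of `p(ψ) ^ 2` is
the kernel of `p(ψ)`. -/
def IsSemisimple {V : Type} [AddCommGroup V] [Module ℤ_[2] V] (ψ : V →ₗ[ℤ_[2]] V) : Prop :=
  ∀ (p : ℤ_[2][X]) (v : V), aeval ψ p (aeval ψ p v) = 0 → aeval ψ p v = 0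

/-- The eigenvalues of `ψ` are distinct, even modulo `2`, and each endomorphism which commutes with `ψ` is a
polynomial in `ψ`. -/
structure HasDistinctEigenvalues {V : Type} [AddCommGroup V] [Module ℤ_[2] V] [Module.Finite ℤ_[2] V]
    [Module.Free ℤ_[2] V] (ψ : V →ₗ[ℤ_[2]] V) : Prop where
  modTwo : (ψ.charpoly.map (PadicInt.toZMod (p := 2))).Separable
  separable : ψ.charpoly.Separable
  commutant : ∀ χ : V →ₗ[ℤ_[2]] V, (∀ v, χ (ψ v) = ψ (χ v)) → ∃ p : ℤ_[2][X], χ = aeval ψ p

/-- `β` is a nondegenerate symmetric form on `V` preserved by `ψ`. -/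
structure IsInvariantForm {V : Type} [AddCommGroup V] [Module ℤ_[2] V] (ψ : V →ₗ[ℤ_[2]] V)
    (β : V →ₗ[ℤ_[2]] V →ₗ[ℤ_[2]] ℤ_[2]) : Prop where
  symm : ∀ x y, β x y = β y x
  nondegenerate : ∀ x, (∀ y, β x y = 0) → x = 0
  invariant : ∀ x y, β (ψ x) (ψ y) = β x y

/-- The conclusions on the action `φ` on `M` of an automorphism with `r ≤ 3` cycles: `φ` fixes `D`; if
`r ≤ 2`, the eigenvalues on `M / ℤ_2 D` are distinct and the action on it is semisimple; in all cases it is
semisimple if it preserves a nondegenerate symmetric form. -/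
structure Conclusions (D : M) (φ : M →ₗ[ℤ_[2]] M) [Module.Finite ℤ_[2] M]
    [Module.Free ℤ_[2] (Quot D)] (r : ℕ) : Prop where
  fixes : φ D = D
  distinct : r ≤ 2 → ∀ ψ : Quot D →ₗ[ℤ_[2]] Quot D, IsQuotient D φ ψ →
    HasDistinctEigenvalues ψ ∧ IsSemisimple ψ
  semisimple : ∀ ψ : Quot D →ₗ[ℤ_[2]] Quot D, IsQuotient D φ ψ → (∃ β, IsInvariantForm ψ β) →
    IsSemisimple ψ

end lin

/-- The numbers in `s` are odd and pairwise coprime, and there are at most three of them. -/
structure IsAdmissible (s : Multiset ℕ) : Prop where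
  odd : ∀ c ∈ s, Odd c
  coprime : s.Pairwise Nat.Coprime
  card_le : Multiset.card s ≤ 3

/-- The cycles of `τ` on the roots of `e` in `k'` have the lengths `s`. -/
def HasCycles {k k' : Type} [Field k] [Field k'] [Algebra k k'] (τ : k' ≃ₐ[k] k') (e : k[X])
    (s : Multiset ℕ) : Prop :=
  ∃ π : Equiv.Perm (e.rootSet k'), (∀ r : e.rootSet k', ((π r : e.rootSet k') : k') = τ r) ∧
    (Equiv.Perm.partition π).parts = s

/-- There are automorphisms `T` of `Sep F` over `K` with the effect `τ` on `k'`, and each of them acts on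
the module `M` of the classes with the properties above. -/
def Concl {k : Type} [Field k] (k' K F : Type) [Field k'] [Algebra k k'] [Field K] [Algebra k[X] K]
    [Field F] [Algebra k'[X] F] [IsFractionRing k'[X] F] [Algebra K F] (P : k[X][X]) (G : k[X])
    (τ : k' → k') (r : ℕ) : Prop :=
  ∃ (M : Type) (_ : AddCommGroup M) (_ : Module ℤ_[2] M) (_ : Module.Finite ℤ_[2] M)
    (_ : Module.Free ℤ_[2] M) (κ : Cochain F (Sep F) (fPoly P G K) → M) (D : M)
    (_ : Module.Free ℤ_[2] (Quot D)), IsModule k'[X] P G κ D ∧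
    (∃ T : Sep F ≃ₐ[K] Sep F, ActsOnConstants T τ) ∧
    ∀ T : Sep F ≃ₐ[K] Sep F, ActsOnConstants T τ →
      ∃ φ : M →ₗ[ℤ_[2]] M, ActsAs k'[X] (fPoly P G K) κ T φ ∧ Conclusions D φ r

/-- (1) Arbitrary fields and automorphisms. -/
def AllFields : Prop :=
  ∀ (k k' K F : Type) [Field k] [Field k'] [Algebra k k'] [IsSepClosure k k'] [Field K]
    [Algebra k[X] K] [IsFractionRing k[X] K] [Field F] [Algebra k'[X] F] [IsFractionRing k'[X] F]
    [Algebra K F] (P : k[X][X]) (G : k[X]) (τ : k' ≃ₐ[k] k') (s : Multiset ℕ),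
    (∀ p : k[X], algebraMap K F (algebraMap k[X] K p) =
      algebraMap k'[X] F (p.map (algebraMap k k'))) →
    IsPair k' P G → HasCycles τ (valueAt P G) s → IsAdmissible s →
      Concl k' K F P G τ (Multiset.card s)

/-- (2) Finite fields and the Frobenius automorphism: `e` is a constant times the product of the
irreducible polynomials in `s`, the degrees of which are odd and pairwise coprime. -/
def FiniteFields : Prop :=
  ∀ (k k' K F : Type) [Field k] [Finite k] [Field k'] [Algebra k k'] [IsSepClosure k k'] [Field K]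
    [Algebra k[X] K] [IsFractionRing k[X] K] [Field F] [Algebra k'[X] F] [IsFractionRing k'[X] F]
    [Algebra K F] (P : k[X][X]) (G : k[X]) (s : Multiset k[X]),
    (∀ p : k[X], algebraMap K F (algebraMap k[X] K p) =
      algebraMap k'[X] F (p.map (algebraMap k k'))) →
    IsPair k' P G → (∀ g ∈ s, Irreducible g) → Associated (valueAt P G) s.prod →
    IsAdmissible (s.map natDegree) →
      Concl k' K F P G (fun x => x ^ Nat.card k) (Multiset.card s)

open Pool.Agent.Q45.GM Pool.Agent.Q45.EM

section conv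

variable {K F : Type} [Field K] [Field F] [Algebra K F] {B : Type} [CommRing B] [IsDedekindDomain B]
  [Algebra B F] [IsFractionRing B F] {f : K[X]}

theorem toTC {c : Cochain F (Sep F) f} (h : IsTC 2 2 f c) : Pool.Agent.Y160.SQ.IsTC 2 2 f c :=
  ⟨fun n => ⟨(h.coc n).lc, (h.coc n).mul⟩, h.zero, h.step⟩

theorem ofTC {c : Cochain F (Sep F) f} (h : Pool.Agent.Y160.SQ.IsTC 2 2 f c) : IsTC 2 2 f c :=
  ⟨fun n => ⟨(h.coc n).lc, (h.coc n).mul⟩, h.zero, h.step⟩

/-- The classes of the cocycles. -/
theorem classMap : IsClassMap f (IsSelmerCocycle B f) (SelT (F := F) 2 B f 2) (clsOf B f) where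
  surj m := by
    obtain ⟨c, ⟨h1, h2⟩, h3⟩ := clsOf_surj B f m
    exact ⟨c, ⟨ofTC h1, h2⟩, h3⟩
  add c d hc hd := clsOf_add B f (toTC hc.1) hc.2 (toTC hd.1) hd.2
  zero c hc := by
    refine (clsOf_zero B f (toTC hc.1) hc.2).trans ⟨?_, ?_⟩
    · rintro ⟨R, hR, h⟩
      exact ⟨R, ⟨hR.zero, hR.step⟩, h⟩
    · rintro ⟨R, hR, h⟩
      exact ⟨R, ⟨hR.zero, hR.step⟩, h⟩

end conv

section acts

variable {k k' K F : Type} [Field k] [Field k'] [Algebra k k'] [IsSepClosed k']
  [Algebra.IsSeparable k k'] [Field K] [Algebra k[X] K] [Field F] [Algebra k'[X] F] [Algebra K F]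

theorem acts_rho [IsFractionRing k'[X] F] (hF' : Pool.Agent.Q45.TW.IsGeom k k' K F) (f : K[X])
    (T : Sep F ≃ₐ[K] Sep F) : ActsAs k'[X] f (clsOf k'[X] f) T (rho k'[X] hF' f T) := by
  intro c d hc hd
  obtain ⟨⟨h4, h5⟩, h6⟩ := rho_cls k'[X] hF' f T (toTC hc.1) hc.2 hd
  exact ⟨⟨ofTC h4, h5⟩, h6⟩

end acts

section pair

variable {k k' : Type} [Field k] [Field k'] [Algebra k k'] {P : k[X][X]} {G : k[X]}

theorem IsPair.dm (h : IsPair k' P G) : Dm k' P G where
  two := h.two
  monic := h.monic
  odd := h.odd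
  three := by have := h.three_le; omega
  der := h.deriv_ne
  smooth := h.smooth
  sep := h.separable
  br := by
    obtain ⟨φ⟩ := h.line
    exact isBr_of_line φ
  unr := unr_of_coprime h.monic (by have := h.three_le; omega) h.coprime

/-- The roots are not empty. -/
theorem root_nonempty [IsSepClosed k'] (h : IsPair k' P G) :
    Nonempty ((valueAt P G).rootSet k') := by
  have hspl : ((valueAt P G).map (algebraMap k k')).Splits :=
    IsSepClosed.splits_codomain _ h.separable
  obtain ⟨a, ha⟩ := hspl.exists_eval_eq_zero (by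
    rw [degree_map]
    exact (natDegree_pos_iff_degree_pos.1 h.pos).ne')
  refine ⟨⟨a, ?_⟩⟩
  rw [mem_rootSet]
  refine ⟨h.separable.ne_zero, ?_⟩
  rw [eval_map] at ha
  exact ha

section mod

variable {K F : Type} [Field K] [Algebra k[X] K] [Field F] [Algebra k'[X] F] [IsFractionRing k'[X] F]
  [Algebra K F]

theorem isModule_of {D : SelT (F := F) 2 k'[X] (fPoly P G K) 2} (h : PtClass P G D) :
    IsModule k'[X] P G (clsOf k'[X] (fPoly P G K)) D := by
  obtain ⟨P₀, R, h1, h2, h3, h4, h5, h6⟩ := h
  exact ⟨classMap, P₀, h1, cD (fPoly P G K) R, ⟨ofTC h4, h5⟩, h6.symm, fun n =>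
    ⟨R n, (halves R h3 n).trans h2, fun σ => rfl⟩⟩

end mod

variable {K F : Type} [Field K] [Algebra k[X] K] [IsFractionRing k[X] K] [Field F]
  [Algebra k'[X] F] [IsFractionRing k'[X] F] [Algebra K F] [IsSepClosed k'] [Algebra.IsSeparable k k']

/-- The reduction modulo `2` of the module of the classes. -/
theorem core (hP : IsPair k' P G) (hcomp : ∀ p : k[X], algebraMap K F (algebraMap k[X] K p) =
      algebraMap k'[X] F (p.map (algebraMap k k'))) (hF : Pool.Agent.Q45.TW.IsGeom k k' K F) :
    ∃ (_ : Module.Finite ℤ_[2] (SelT (F := F) 2 k'[X] (fPoly P G K) 2))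
      (_ : Module.Free ℤ_[2] (SelT (F := F) 2 k'[X] (fPoly P G K) 2))
      (κ : SelT (F := F) 2 k'[X] (fPoly P G K) 2 →+ ((valueAt P G).rootSet k' → ZMod 2))
      (D : SelT (F := F) 2 k'[X] (fPoly P G K) 2), Red κ D ∧ PtClass P G D ∧
      (∀ T, rho k'[X] hF (fPoly P G K) T D = D) ∧
      ∀ (T : Sep F ≃ₐ[K] Sep F) (τ : k' ≃ₐ[k] k'), (∀ x, T (cs k' F x) = cs k' F (τ x)) →
        ∀ π : Equiv.Perm ((valueAt P G).rootSet k'),
          (∀ r, ((π r : (valueAt P G).rootSet k') : k') = τ r) →
          Thr κ (rho k'[X] hF (fPoly P G K) T) π := em_core hP.dm hcomp hF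

end pair

section abs

variable {R M : Type} [Fintype R] [Nonempty R] [i : DecidableEq R] [AddCommGroup M]
  [Module ℤ_[2] M] [Module.Free ℤ_[2] M] [Module.Finite ℤ_[2] M] {κ : M →+ (R → ZMod 2)} {D : M}
  {φ : M →ₗ[ℤ_[2]] M} {π : Equiv.Perm R}

theorem conclusions_of (hr : Red κ D) (hD : φ D = D) (hT : Thr κ φ π) {s : Multiset ℕ}
    (hs : (Equiv.Perm.partition π).parts = s) (hadm : IsAdmissible s)
    [Module.Free ℤ_[2] (Quot D)] : Conclusions D φ (Multiset.card s) := by
  have hi : i = fun a b => Classical.propDecidable (a = b) := Subsingleton.elim _ _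
  subst hi
  have hst := span_stable hD
  have hq : ∀ ψ : Quot D →ₗ[ℤ_[2]] Quot D, IsQuotient D φ ψ →
      ψ = Submodule.mapQ _ (Submodule.span ℤ_[2] {D}) φ hst := by
    intro ψ hψ
    refine LinearMap.ext fun x => ?_
    obtain ⟨m, rfl⟩ := Submodule.Quotient.mk_surjective _ x
    rw [hψ m]
    rfl
  obtain ⟨_, h3, h4⟩ := cons_one Pool.Agent.Q151.EM.main hr hD hT hs hadm.odd hadm.coprime hst
  refine ⟨hD, fun hc ψ hψ => ?_, fun ψ hψ hβ => ?_⟩
  · rw [hq ψ hψ]
    obtain ⟨h5, h6, h7, h8⟩ := h3 hc
    exact ⟨⟨h5, h6, h8⟩, h7⟩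
  · obtain ⟨β, hβ⟩ := hβ
    have h9 := hq ψ hψ
    subst h9
    exact h4 hadm.card_le β hβ.symm hβ.nondegenerate hβ.invariant

end abs

theorem allFields : AllFields := by
  intro k k' K F _ _ _ hk' _ _ _ _ _ _ _ P G τ s hcomp hP hs hadm
  haveI : IsSepClosed k' := hk'.sep_closed
  haveI : Algebra.IsSeparable k k' := hk'.separable
  have hF' := isGeom_rat (K := K) (F := F) hcomp
  obtain ⟨h1, h2, κ, D, hr, hpt, hD, hact⟩ := core (K := K) (F := F) hP hcomp hF'
  haveI i1 : Module.Finite ℤ_[2] (SelT (F := F) 2 k'[X] (fPoly P G K) 2) := h1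
  haveI i2 : Module.Free ℤ_[2] (SelT (F := F) 2 k'[X] (fPoly P G K) 2) := h2
  haveI i3 : Nonempty ((valueAt P G).rootSet k') := root_nonempty hP
  obtain ⟨π, hπ, hparts⟩ := hs
  obtain ⟨T₀, hT₀⟩ := exists_T (K := K) (F := F) hcomp τ
  haveI hfree : Module.Free ℤ_[2] (Quot D) := Pool.Agent.Q237.EM.QCH.free_quot hr
  exact ⟨SelT (F := F) 2 k'[X] (fPoly P G K) 2, inferInstance, inferInstance, i1, i2,
    clsOf k'[X] (fPoly P G K), D, hfree, isModule_of hpt, ⟨T₀, hT₀⟩, fun T hT =>
    ⟨rho k'[X] hF' (fPoly P G K) T, acts_rho hF' _ T,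
      conclusions_of hr (hD T) (hact T τ hT π hπ) hparts hadm⟩⟩

theorem finiteFields : FiniteFields := by
  intro k k' K F _ _ _ _ hk' _ _ _ _ _ _ _ P G s hcomp hP hs hassoc hadm
  haveI : IsSepClosed k' := hk'.sep_closed
  haveI : Algebra.IsSeparable k k' := hk'.separable
  haveI : Algebra.IsAlgebraic k k' := Algebra.IsSeparable.isAlgebraic k k'
  letI : Fintype k := Fintype.ofFinite k
  let τ : k' ≃ₐ[k] k' := FiniteField.frobeniusAlgEquivOfAlgebraic k k'
  have hτ : ∀ x : k', τ x = x ^ Nat.card k := by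
    intro x
    rw [Nat.card_eq_fintype_card]
    rfl
  obtain ⟨π, hπ⟩ := exists_perm (valueAt P G) τ
  have hparts := Pool.Agent.Q176.EM.main k k' (valueAt P G) s hP.separable hs hassoc π (fun r => by
    rw [hπ, hτ])
  have h1 := allFields k k' K F P G τ (s.map natDegree) hcomp hP ⟨π, hπ, hparts⟩ hadm
  rw [Multiset.card_map] at h1
  have h2 : (τ : k' → k') = fun x => x ^ Nat.card k := funext hτ
  rw [h2] at h1
  exact h1

/-- **Semisimplicity of Frobenius for the surfaces `Y ^ 2 = (w - G(t)) P(t, w)`.** -/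
theorem result : AllFields ∧ FiniteFields := ⟨allFields, finiteFields⟩

end Pool.Agent.Results.MP_b685ef_ag.PairwiseCoprimeDegrees
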