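import Pool.Agent.Q173.FS.Main

/-!
# Frobenius is semisimple on complete varieties resolved by sums of small forms

Let `X` be a complete variety (singularities are allowed) over a finite field of characteristic at
least five. Assume that `X` has a proper hypercovering by smooth projective varieties `X_a` (for
instance, `X` has simple normal crossings and the `X_a` are the intersections of `a + 1` components)
whose motives are obtained by tensor products, direct sums, direct summands and Tate twists from
those of abelian varieties, curves, K3 surfaces, and of the smooth hypersurfaces of ARBITRARY dimension

  `f_1 + f_2 + ⋯ + f_r = 0`, `f_j` forms of degree `d` in disjoint sets of variables,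

where the `f_j` have at most two variables, or `d = 3` and they have at most six variables, or `d = 4`
and they have at most four variables (one further term `u_j ^ d` is allowed for each `j`). Then
Frobenius acts semisimply on `H^i(X)` for all `i`.
-/

set_option autoImplicit false

open CategoryTheory MonoidalCategory

universe v u w

namespace Pool.Agent.Results.MP_b685ef_ag.ResolvedBySmallSums

open Pool.Agent.Q173.FS

/-- **Semisimplicity of Frobenius.** `T`: Chow motives over the finite field `k`, their cohomology and
that of the complete varieties over `k` (`hT`: known facts); `T.Res X Y`: the `Y a` are the motives of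
the terms of a proper hypercovering of the complete variety `X`; `T.Good`: the motive is generated by
abelian varieties, curves, K3 surfaces, and hypersurfaces `f_1 + ⋯ + f_r = 0` of arbitrary dimension,
`f_j` small. Then Frobenius is diagonalisable on all cohomology groups of `X`. -/
theorem result {Ω : Type} [Field Ω] [CharZero Ω] [IsAlgClosed Ω] {𝓜 : Type u} [Category.{v} 𝓜]
    [Preadditive 𝓜] [MonoidalCategory 𝓜] {T : FData.{v, u, w} Ω 𝓜} (hT : T.Facts)
    {X : T.Var} {Y : ℕ → 𝓜} (hX : T.Res X Y) (hY : ∀ a, T.Good (Y a)) (i : ℕ) :
    (T.coh X i).Semisimple :=
  hT.main hX hY i

end Pool.Agent.Results.MP_b685ef_ag.ResolvedBySmallSums
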